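import Mathlib
import Pool.Agent.Q90.HS.Side

set_option autoImplicit false

/-!
# MP_16b0ee_an: the part of the circle where `|ψ'| ≤ 1`

For every `0 < a < 1` the integral of `exp (a ((Re h)²/2 + (Im h)²/4) / log (R²/(R² - 1)))` over the part of the circle
`|z| = R` where `|ψ'| ≤ 1` (that is `Re h ≤ 0`) is bounded, uniformly for all `R > 1` and all `ψ ∈ Σ`. In particular the
integral of the question, restricted to `|ψ'| ≤ 1`, is bounded for every `a < 1/4`, and with `(log |ψ'|)²` in place of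
`|log ψ'|²` for every `a < 1/2`.

The proof. The power area inequality (see the hand-in `EveryMapPowerArea`) gives for the mean of `|exp (t h)|` over `|z| = R`
the bound `K (R²/(R² - 1))^λ` whenever `|t| (λ + 1 + r) < r |λ + 1 - t|`, `r = √(λ(λ + 2))`, with an explicit constant; for
`t = -x + i y`, `x ≥ 0`, the exponent `λ = x²/2 + y²` satisfies this with `≤` (an inequality in one real variable after a
convexity argument), so `γ² (x²/2 + y²)` is admissible for every `γ > 1`, with `K` independent of `t`, `R` and `ψ`. This is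
integrated against the Gaussian `exp (-L (x²/(2a) + y²/a))` over the half plane `x > 0`, `L = log (R²/(R² - 1))`; at a point
where `Re h ≤ 0` the half plane contains at least half of the mass.
-/

namespace Pool.Agent.Results.MP_16b0ee_an.CompressionSide

/-- The point `r e^{iθ}`. -/
noncomputable def circ (r θ : ℝ) : ℂ := (r : ℂ) * Complex.exp ((θ : ℂ) * Complex.I)

/-- `ψ ∈ Σ` and `h = log ψ'` (the branch vanishing at infinity), exactly as in the problem. -/
def IsSigma (ψ h : ℂ → ℂ) : Prop :=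
  DifferentiableOn ℂ ψ {z : ℂ | 1 < ‖z‖} ∧
  Set.InjOn ψ {z : ℂ | 1 < ‖z‖} ∧
  (∃ b : ℂ, Filter.Tendsto (fun z => ψ z - z) (Bornology.cobounded ℂ) (nhds b)) ∧
  DifferentiableOn ℂ h {z : ℂ | 1 < ‖z‖} ∧
  (∀ z : ℂ, 1 < ‖z‖ → Complex.exp (h z) = deriv ψ z) ∧
  Filter.Tendsto h (Bornology.cobounded ℂ) (nhds 0)

/-- The integral of `exp (a ((Re h)²/2 + (Im h)²/4) / log (R²/(R² - 1)))` over the part of the circle `|z| = R` where
`Re h ≤ 0`, that is `|ψ'| ≤ 1` (with respect to the angle, total mass `2π`). -/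
noncomputable def compression (a R : ℝ) (h : ℂ → ℂ) : ENNReal :=
  ∫⁻ θ in Set.Ioc 0 (2 * Real.pi), (if (h (circ R θ)).re ≤ 0 then
    ENNReal.ofReal (Real.exp (a * ((h (circ R θ)).re ^ 2 / 2 + (h (circ R θ)).im ^ 2 / 4) /
      Real.log (R ^ 2 / (R ^ 2 - 1)))) else 0)

theorem result :
    ∀ a : ℝ, 0 < a → a < 1 → ∃ C : ℝ, ∀ R : ℝ, 1 < R →
      ∀ ψ h : ℂ → ℂ, IsSigma ψ h → compression a R h ≤ ENNReal.ofReal C :=
  Q90.HS.side

end Pool.Agent.Results.MP_16b0ee_an.CompressionSide
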