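import Mathlib
import Pool.Agent.Q90.HS.Fin18

set_option autoImplicit false

/-!
# MP_16b0ee_an: the strong Marshall bound for every map of the class `Σ` and every `a ≤ 9/50`

The integral of the question is bounded, uniformly for all `R > 1`, all `ψ ∈ Σ` and all `0 < a ≤ 9/50`.
(The Bloch seminorm of `h = log ψ'` is at most `6`, and this alone gives `a < 1/36`.)

The proof. Let `H(v) = h(1/v)`, `L = log (1/(1 - s²))`, `t ∈ ℂ`, and let `P_t(s)` be the mean of `|exp (t H)|` over `|v| = s`.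

1. *Power area inequality.* For fixed `ζ` the function `((ψ(1/z) - ψ(1/ζ))/(1/z - 1/ζ))^(-θ) (1 - ζ/z)^(-θ)` is a function of
   `ψ(1/z)`, so its area is `≤ 0` (`0 < θ < 1`, Prawitz; Hedenmalm and Shimorin). Multiply by `exp ((θ + t/2) H(ζ))`, average
   over `|ζ| = R √x` and integrate against `(1 - x)^(μ - 1) dx`, `μ = λ + 2θ`. This gives a quadratic form on the
   homogeneous parts of the function of `(z, ζ)`, invariant under a representation of `sl₂`; it has one negative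
   eigendirection in each degree, and the projections to the first two components are the value and the first derivative on the
   diagonal. This yields, for `F = exp (t H / 2)`,
   `|λ + 1 - t|² θ (1 - θ) λ (λ + 2) ‖F‖₁² ≤ |t|² (λ + θ)(λ + θ + 1) ‖F‖₀²` with explicit weighted norms, and hence
   `P_t(s) ≤ K exp (λ L)` whenever `|t|² (λ + θ)(λ + θ + 1) ≤ q |λ + 1 - t|² θ (1 - θ) λ (λ + 2)`, `q < 1`, with
   `K = (λ + 1)/((1 - q)(λ + 1 - |t|))`, for all complex `t`.
2. For `Re t ≤ 0` this gives the exponent `(Re t)²/2 + (Im t)²`, and for `0 ≤ Re t ≤ 1/8`, `|t| ≤ 0.721`, the exponent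
   `1.388 |t|²`.
3. Gronwall's area theorem gives `P_2(s) ≤ 2/(1 - s²)`, and Hoelder's inequality between the line `Re t = 1/8` and `t = 2`
   gives `1.388 |t|²` for `Re t ≥ 1/8`, `|t| ≤ 0.721`; Goluzin's inequality `|H| ≤ L` gives it for `|t| ≥ 0.721`.
4. So `P_t(s) ≤ K exp (1.388 |t|² L)` for all complex `t` with one constant `K`; a Gaussian average over `t` finishes the proof.
-/

namespace Pool.Agent.Results.MP_16b0ee_an.EveryMapPowerArea

/-- The point `r e^{iθ}`. -/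
noncomputable def circ (r θ : ℝ) : ℂ := (r : ℂ) * Complex.exp ((θ : ℂ) * Complex.I)

/-- `ψ ∈ Σ` and `h = log ψ'` (the branch vanishing at infinity), exactly as in the problem. -/
def IsSigma (ψ h : ℂ → ℂ) : Prop :=
  DifferentiableOn ℂ ψ {z : ℂ | 1 < ‖z‖} ∧
  Set.InjOn ψ {z : ℂ | 1 < ‖z‖} ∧
  (∃ b : ℂ, Filter.Tendsto (fun z => ψ z - z) (Bornology.cobounded ℂ) (nhds b)) ∧
  DifferentiableOn ℂ h {z : ℂ | 1 < ‖z‖} ∧
  (∀ z : ℂ, 1 < ‖z‖ → Complex.exp (h z) = deriv ψ z) ∧
  Filter.Tendsto h (Bornology.cobounded ℂ) (nhds 0)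

/-- The integral of Q1. -/
noncomputable def marshall (a R : ℝ) (h : ℂ → ℂ) : ℝ :=
  (1 / (2 * Real.pi)) * ∫ θ in (0:ℝ)..(2 * Real.pi),
    Real.exp (a * ‖h (circ R θ)‖ ^ 2 / Real.log (R ^ 2 / (R ^ 2 - 1)))

theorem result :
    ∃ C : ℝ, ∀ a : ℝ, 0 < a → a ≤ 9 / 50 → ∀ R : ℝ, 1 < R →
      ∀ ψ h : ℂ → ℂ, IsSigma ψ h → marshall a R h ≤ C :=
  Q90.HS.fin18

end Pool.Agent.Results.MP_16b0ee_an.EveryMapPowerArea
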