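import Mathlib
import Pool.Agent.Q90.HS.Fam2

set_option autoImplicit false

/-!
# MP_16b0ee_an: the strong Marshall bound for holomorphic families in the class `Σ`

Let `ψ_λ ∈ Σ`, `|λ| < 1`, be a family with `ψ_0 = id` and `λ ↦ ψ_λ(z)` holomorphic for every `z` (a normalised holomorphic
motion of the exterior disc; the restriction to the exterior disc of a normalised `k`-quasiconformal map conformal there is a
member with `|λ| = k` of such a family). If `a k² ≤ 9/50`, then the integral of the question is bounded uniformly for all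
`R > 1`, all such families and all `|λ| ≤ k`. For `k ≤ √(9/50) = 0.4242…` this is the full range `0 < a < 1`.

The proof. Let `h_λ = log ψ_λ'`. For a point `z` the function `λ ↦ h_λ(z)` is holomorphic and vanishes at `0`. For
`τ ∈ ℂ` the mean over `|z| = R` of `|exp (τ h_λ(z)/λ)|` is the square of the norm of a holomorphic `L²`-valued function of
`λ`, so it is at most its supremum over `|λ| = ρ`, for every `ρ < 1`; there it is at most `K exp (1.388 |τ|²/ρ² L)` by the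
bound for all maps of the class `Σ` (see the hand-in `EveryMapPowerArea`), `L = log (R²/(R² - 1))`. Let `ρ → 1` and
`τ = t λ`: the mean of `|exp (t h_λ)|` is at most `K exp (1.388 |λ|² |t|² L)` for all complex `t`, and this is integrated
against a Gaussian.
-/

namespace Pool.Agent.Results.MP_16b0ee_an.HolomorphicFamilies

/-- The point `r e^{iθ}`. -/
noncomputable def circ (r θ : ℝ) : ℂ := (r : ℂ) * Complex.exp ((θ : ℂ) * Complex.I)

/-- `ψ ∈ Σ` and `h = log ψ'` (the branch vanishing at infinity), exactly as in the problem. -/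
def IsSigma (ψ h : ℂ → ℂ) : Prop :=
  DifferentiableOn ℂ ψ {z : ℂ | 1 < ‖z‖} ∧
  Set.InjOn ψ {z : ℂ | 1 < ‖z‖} ∧
  (∃ b : ℂ, Filter.Tendsto (fun z => ψ z - z) (Bornology.cobounded ℂ) (nhds b)) ∧
  DifferentiableOn ℂ h {z : ℂ | 1 < ‖z‖} ∧
  (∀ z : ℂ, 1 < ‖z‖ → Complex.exp (h z) = deriv ψ z) ∧
  Filter.Tendsto h (Bornology.cobounded ℂ) (nhds 0)

/-- The integral of Q1. -/
noncomputable def marshall (a R : ℝ) (h : ℂ → ℂ) : ℝ :=
  (1 / (2 * Real.pi)) * ∫ θ in (0:ℝ)..(2 * Real.pi),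
    Real.exp (a * ‖h (circ R θ)‖ ^ 2 / Real.log (R ^ 2 / (R ^ 2 - 1)))

/-- A holomorphic family `Ψ λ`, `|λ| < 1`, of maps of the class `Σ`, with `Ψ 0 = id`. -/
def IsFamily (Ψ : ℂ → ℂ → ℂ) : Prop :=
  (∀ l : ℂ, ‖l‖ < 1 → ∃ h : ℂ → ℂ, IsSigma (Ψ l) h) ∧
  (∀ z : ℂ, 1 < ‖z‖ → DifferentiableOn ℂ (fun l => Ψ l z) {l : ℂ | ‖l‖ < 1}) ∧
  (∀ z : ℂ, 1 < ‖z‖ → Ψ 0 z = z)

theorem ball_eq : Metric.ball (0:ℂ) 1 = {l : ℂ | ‖l‖ < 1} := by
  ext l
  simp

theorem result :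
    ∃ C : ℝ, ∀ a k : ℝ, 0 < a → 0 ≤ k → k < 1 → a * k ^ 2 ≤ 9 / 50 → ∀ R : ℝ, 1 < R →
      ∀ Ψ : ℂ → ℂ → ℂ, IsFamily Ψ → ∀ (l : ℂ) (h : ℂ → ℂ), ‖l‖ ≤ k → IsSigma (Ψ l) h → marshall a R h ≤ C := by
  obtain ⟨C, hC⟩ := Q90.HS.fam18
  refine ⟨C, fun a k ha hk0 hk1 hak R hR Ψ hΨ l h hl hS => hC a k ha hk0 hk1 hak R hR Ψ ⟨?_, ?_, hΨ.2.2⟩ l h hl hS⟩
  · intro m hm
    exact hΨ.1 m (mem_ball_zero_iff.1 hm)
  · intro z hz
    rw [ball_eq]
    exact hΨ.2.1 z hz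

end Pool.Agent.Results.MP_16b0ee_an.HolomorphicFamilies
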