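import Mathlib
import Pool.Agent.Q90.SM.All
import Pool.Agent.Q90.SM.Fin5
import Pool.Agent.Q275.SM.Loc

set_option autoImplicit false

/-!
# MP_16b0ee_an: the strong Marshall bound under a bound for the Schwarzian derivative

`S_ψ = (ψ''/ψ')' - (ψ''/ψ')²/2` is the Schwarzian derivative of `ψ`. For univalent `ψ` one has `(|z|² - 1)² |S_ψ(z)| ≤ 6`
(Kraus, Nehari), and `ψ` has a quasiconformal extension if the left side is `≤ 2k` with `k < 1` near the unit circle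
(Ahlfors and Weill, Becker).

* Let `0 ≤ k < 1`, `δ > 0`, `a > 0`, `a (2 - 2 √(1 - k²)) < 1`. Then the integral of the question is bounded uniformly for
  all `R > 1` and all `ψ ∈ Σ` with `(|z|² - 1)² |S_ψ(z)| ≤ 2k` for `1 < |z| < 1 + δ`. For `2k ≤ √3` this is the full
  range `0 < a < 1` of the question.
* For `0 < a < 1/2` the integral is bounded uniformly for all `R > 1` and all `ψ ∈ Σ` with `(|z|² - 1)² |S_ψ(z)| ≤ 2`
  for all `|z| > 1` (the Nehari class).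

The proof. Let `H(v) = h(1/v)`, `W(v) = (1 - |v|²) v H'(v)`. Along the rays `W` solves the Riccati equation
`s (1 - s²) W' = - (1 + s²) W + W²/2 + τ` with `|τ| = (1 - s²)² |S_ψ(1/v)| / s²`. The disc of centre `2(1 - cos α)` and
radius `2 sin α`, `sin 2α = k`, attracts the solutions, so `W(v)` lies in it (up to `O(1 - |v|²)`). Then the Riccati
inequality for the means of `|ψ' ^ t|`, `t` complex, gives the exponential bounds with the constant `radius²/4`, which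
are integrated against a Gaussian.
-/

namespace Pool.Agent.Results.MP_16b0ee_an.SchwarzianBound

/-- The point `r e^{iθ}`. -/
noncomputable def circ (r θ : ℝ) : ℂ := (r : ℂ) * Complex.exp ((θ : ℂ) * Complex.I)

/-- `ψ ∈ Σ` and `h = log ψ'` (the branch vanishing at infinity), exactly as in the problem. -/
def IsSigma (ψ h : ℂ → ℂ) : Prop :=
  DifferentiableOn ℂ ψ {z : ℂ | 1 < ‖z‖} ∧
  Set.InjOn ψ {z : ℂ | 1 < ‖z‖} ∧
  (∃ b : ℂ, Filter.Tendsto (fun z => ψ z - z) (Bornology.cobounded ℂ) (nhds b)) ∧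
  DifferentiableOn ℂ h {z : ℂ | 1 < ‖z‖} ∧
  (∀ z : ℂ, 1 < ‖z‖ → Complex.exp (h z) = deriv ψ z) ∧
  Filter.Tendsto h (Bornology.cobounded ℂ) (nhds 0)

/-- The integral of Q1. -/
noncomputable def marshall (a R : ℝ) (h : ℂ → ℂ) : ℝ :=
  (1 / (2 * Real.pi)) * ∫ θ in (0:ℝ)..(2 * Real.pi),
    Real.exp (a * ‖h (circ R θ)‖ ^ 2 / Real.log (R ^ 2 / (R ^ 2 - 1)))

/-- The Schwarzian derivative `(ψ''/ψ')' - (ψ''/ψ')²/2`. -/
noncomputable def schwarzian (ψ : ℂ → ℂ) (z : ℂ) : ℂ :=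
  deriv (fun w => deriv (deriv ψ) w / deriv ψ w) z - (deriv (deriv ψ) z / deriv ψ z) ^ 2 / 2

theorem result :
    (∀ a k δ : ℝ, 0 < a → 0 ≤ k → k < 1 → 0 < δ → a * (2 - 2 * Real.sqrt (1 - k ^ 2)) < 1 →
      ∃ C : ℝ, ∀ R : ℝ, 1 < R → ∀ ψ h : ℂ → ℂ, IsSigma ψ h →
        (∀ z : ℂ, 1 < ‖z‖ → ‖z‖ < 1 + δ → (‖z‖ ^ 2 - 1) ^ 2 * ‖schwarzian ψ z‖ ≤ 2 * k) → marshall a R h ≤ C) ∧
    (∀ a : ℝ, 0 < a → a < 1 / 2 →
      ∃ C : ℝ, ∀ R : ℝ, 1 < R → ∀ ψ h : ℂ → ℂ, IsSigma ψ h →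
        (∀ z : ℂ, 1 < ‖z‖ → (‖z‖ ^ 2 - 1) ^ 2 * ‖schwarzian ψ z‖ ≤ 2) → marshall a R h ≤ C) := by
  refine ⟨fun a k δ ha hk0 hk1 hδ hak => ?_, fun a ha ha2 => ?_⟩
  · obtain ⟨C, hC⟩ := Q90.SM.fin5loc Q90.SM.ext_all Q90.SM.key_all Q275.SM.loc a k δ ha hk0 hk1 hδ hak
    exact ⟨C, fun R hR ψ h hS hw => hC R hR ψ h hS hw⟩
  · obtain ⟨C, hC⟩ := Q90.SM.fin5 Q90.SM.ext_all Q90.SM.key_all Q275.SM.inv_disc Q14.SM.schw_ray a 1 ha one_pos le_rfl (by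
      norm_num
      linarith)
    refine ⟨C, fun R hR ψ h hS hw => hC R hR ψ h hS fun z hz => ?_⟩
    rw [mul_one]
    exact hw z hz

end Pool.Agent.Results.MP_16b0ee_an.SchwarzianBound
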